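import Pool.Agent.U501.EP.Stm

set_option autoImplicit false

/-! Project EP, package BUMP: the scaled densities have absolutely summable Fourier series. -/

namespace Pool.Agent.U34.EP.BUMP

open MeasureTheory Set Pool.Agent.U501.EP

/-- a `C¹` function vanishing on `(-∞, 0]` and on `[1, ∞)` has derivative zero there -/
lemma deriv_zero {ρ : ℝ → ℝ} (hρ : Differentiable ℝ ρ) (h0 : ∀ u, u ≤ 0 → ρ u = 0)
    (h1 : ∀ u, 1 ≤ u → ρ u = 0) :
    (∀ u, u ≤ 0 → deriv ρ u = 0) ∧ (∀ u, 1 ≤ u → deriv ρ u = 0) := by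
  constructor
  · intro u hu
    have a1 : HasDerivWithinAt ρ (deriv ρ u) (Iic 0) u := (hρ u).hasDerivAt.hasDerivWithinAt
    have a2 : HasDerivWithinAt ρ 0 (Iic 0) u :=
      (hasDerivWithinAt_const u (Iic (0:ℝ)) (0:ℝ)).congr (fun x hx => h0 x hx) (h0 u hu)
    exact (uniqueDiffOn_Iic (0:ℝ) u hu).eq_deriv _ a1 a2
  · intro u hu
    have a1 : HasDerivWithinAt ρ (deriv ρ u) (Ici 1) u := (hρ u).hasDerivAt.hasDerivWithinAt
    have a2 : HasDerivWithinAt ρ 0 (Ici 1) u :=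
      (hasDerivWithinAt_const u (Ici (1:ℝ)) (0:ℝ)).congr (fun x hx => h1 x hx) (h1 u hu)
    exact (uniqueDiffOn_Ici (1:ℝ) u hu).eq_deriv _ a1 a2

lemma sum_w {δ : ℝ} (hδ : 0 < δ) (N : ℕ) :
    ∑ n ∈ Finset.range N, 1 / (1 + ((n : ℝ) + 1) * δ) ^ 2 ≤ 1 / δ * (1 - 1 / (1 + N * δ)) := by
  induction N with
  | zero => simp
  | succ N ih =>
    rw [Finset.sum_range_succ]
    have hN : (0:ℝ) ≤ N := Nat.cast_nonneg N
    have e1 : 0 < 1 + (N:ℝ) * δ := by positivity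
    have e2 : 0 < 1 + ((N:ℝ) + 1) * δ := by positivity
    have key : 1 / (1 + ((N:ℝ) + 1) * δ) ^ 2 ≤
        1 / δ * (1 / (1 + N * δ) - 1 / (1 + ((N:ℝ)+1) * δ)) := by
      have : 1 / δ * (1 / (1 + N * δ) - 1 / (1 + ((N:ℝ)+1) * δ)) =
          1 / ((1 + N * δ) * (1 + ((N:ℝ)+1) * δ)) := by
        field_simp
        ring
      rw [this]
      apply one_div_le_one_div_of_le (by positivity)
      nlinarith
    push_cast
    nlinarith [key, ih]

/-- the comparison function -/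
noncomputable def w (δ : ℝ) (n : ℤ) : ℝ := 1 / (1 + |(n : ℝ)| * δ) ^ 2

lemma hasSum_w {δ : ℝ} (hδ : 0 < δ) (hδ1 : δ ≤ 1) :
    Summable (w δ) ∧ ∑' n, w δ n ≤ 3 / δ := by
  -- sums over positive integers
  set v : ℕ → ℝ := fun n => 1 / (1 + ((n : ℝ) + 1) * δ) ^ 2 with hv
  have hv0 : ∀ n, 0 ≤ v n := fun n => by positivity
  have hvle : ∀ N, ∑ n ∈ Finset.range N, v n ≤ 1 / δ := by
    intro N
    refine (sum_w hδ N).trans ?_
    have : 0 ≤ 1 / (1 + (N:ℝ) * δ) := by positivity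
    have h2 : 0 < 1 / δ := by positivity
    nlinarith
  have hvs : Summable v := summable_of_sum_range_le hv0 hvle
  have hvt : ∑' n, v n ≤ 1 / δ := Real.tsum_le_of_sum_range_le hv0 hvle
  have e1 : ∀ n : ℕ, w δ ((n : ℤ) + 1) = v n := by
    intro n
    simp only [w, hv]
    push_cast
    rw [abs_of_nonneg (by positivity)]
  have e2 : ∀ n : ℕ, w δ (-((n : ℤ) + 1)) = v n := by
    intro n
    simp only [w, hv]
    push_cast
    rw [abs_neg, abs_of_nonneg (by positivity)]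
  have e0 : w δ 0 = 1 := by simp [w]
  have s1 : HasSum (fun n : ℕ => w δ ((n:ℤ) + 1)) (∑' n, v n) := by
    simp_rw [e1]; exact hvs.hasSum
  have s1' : HasSum (fun n : ℕ => w δ (n:ℤ)) (∑' n, v n + 1) := by
    have := (hasSum_nat_add_iff' (f := fun n : ℕ => w δ (n:ℤ)) (g := ∑' n, v n + 1) 1).1
    apply this
    simpa [e0] using s1
  have s2 : HasSum (fun n : ℕ => w δ (-((n : ℤ) + 1))) (∑' n, v n) := by
    simp_rw [e2]; exact hvs.hasSum
  have s := HasSum.of_nat_of_neg_add_one s1' s2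
  refine ⟨s.summable, ?_⟩
  rw [s.tsum_eq]
  have : 1 ≤ 1 / δ := by rw [le_div_iff₀ hδ]; linarith
  have e3 : 3 / δ = 3 * (1 / δ) := by ring
  rw [e3]
  linarith

/-- the Fourier coefficients of a function supported in `[0, δ]` -/
lemma coeff_le {g : ℝ → ℂ} {δ A : ℝ} (hδ : 0 < δ) (hδ1 : δ ≤ 1)
    (hgc : Continuous g) (hg : ∀ u, δ ≤ u → g u = 0) (hA : ∀ u ∈ Icc 0 δ, ‖g u‖ ≤ A) (n : ℤ) :
    ‖fourierCoeffOn (zero_lt_one' ℝ) g n‖ ≤ A * δ := by
  rw [fourierCoeffOn_eq_integral]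
  simp only [sub_zero, one_div, inv_one, one_smul]
  have hint : ∀ a b : ℝ, IntervalIntegrable
      (fun x : ℝ => fourier (-n) (x : AddCircle (1:ℝ)) • g x) volume a b := by
    intro a b
    apply Continuous.intervalIntegrable
    exact ((fourier (-n)).continuous.comp (AddCircle.continuous_mk' (1:ℝ))).smul hgc
  have hsplit := intervalIntegral.integral_add_adjacent_intervals (hint 0 δ) (hint δ 1)
  have hz : ∫ x in (δ)..1, fourier (-n) (x : AddCircle (1:ℝ)) • g x = 0 := by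
    rw [intervalIntegral.integral_congr (g := fun _ => (0:ℂ))]
    · simp
    · intro x hx
      rw [uIcc_of_le hδ1] at hx
      simp [hg x hx.1]
  rw [hz, add_zero] at hsplit
  have hb : ‖∫ x in (0)..δ, fourier (-n) (x : AddCircle (1:ℝ)) • g x‖ ≤ A * |δ - 0| := by
    apply intervalIntegral.norm_integral_le_of_norm_le_const
    intro x hx
    rw [uIoc_of_le hδ.le] at hx
    rw [norm_smul]
    have : ‖(fourier (-n) (x : AddCircle (1:ℝ)))‖ = 1 := by
      rw [fourier_apply]; exact Circle.norm_coe _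
    rw [this, one_mul]
    exact hA x ⟨hx.1.le, hx.2⟩
  rw [sub_zero, abs_of_pos hδ] at hb
  calc _ = ‖∫ x in (0)..1, fourier (-n) (x : AddCircle (1:ℝ)) • g x‖ := by
        congr 1
        simp
    _ ≤ A * δ := by rw [← hsplit]; exact hb

/-- integration by parts for functions vanishing at both ends -/
lemma coeff_deriv {g g' : ℝ → ℂ} (hd : ∀ x, HasDerivAt g (g' x) x) (hc : Continuous g')
    (h0 : g 0 = 0) (h1 : g 1 = 0) {n : ℤ} (hn : n ≠ 0) :
    ‖fourierCoeffOn (zero_lt_one' ℝ) g n‖ =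
      1 / (2 * Real.pi * |(n : ℝ)|) * ‖fourierCoeffOn (zero_lt_one' ℝ) g' n‖ := by
  have h := fourierCoeffOn_of_hasDerivAt (zero_lt_one' ℝ) hn (f := g) (f' := g') (fun x _ => hd x)
    (hc.intervalIntegrable _ _)
  rw [h, h0, h1]
  simp only [sub_self, mul_zero, Complex.ofReal_one, Complex.ofReal_zero, sub_zero, one_mul, zero_sub]
  rw [norm_mul, norm_neg]
  congr 1
  rw [norm_div, norm_one]
  congr 1
  simp only [norm_mul, norm_neg, Complex.norm_I, mul_one, Complex.norm_intCast]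
  rw [Complex.norm_real, Real.norm_of_nonneg Real.pi_pos.le]
  norm_num

theorem t_BUMP : S_BUMP := by
  intro ρ hρ h0 h1
  have hdiff : Differentiable ℝ ρ := hρ.differentiable (by norm_num)
  have hρ1 : ContDiff ℝ 1 (deriv ρ) := by
    have : ContDiff ℝ (1 + 1) ρ := by
      convert hρ using 1
      norm_num
    exact (contDiff_succ_iff_deriv.1 this).2.2
  have hdiff1 : Differentiable ℝ (deriv ρ) := hρ1.differentiable (by norm_num)
  have hc2 : Continuous (deriv (deriv ρ)) := hρ1.continuous_deriv (by norm_num)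
  obtain ⟨d0, d1⟩ := deriv_zero hdiff h0 h1
  obtain ⟨dd0, dd1⟩ := deriv_zero hdiff1 d0 d1
  obtain ⟨M0, hM0⟩ := (isCompact_Icc (a := (0:ℝ)) (b := 1)).exists_bound_of_continuousOn
    hρ.continuous.continuousOn
  obtain ⟨M2, hM2⟩ := (isCompact_Icc (a := (0:ℝ)) (b := 1)).exists_bound_of_continuousOn
    hc2.continuousOn
  set A : ℝ := max (max M0 M2) 1 with hAdef
  have hA0 : M0 ≤ A := (le_max_left _ _).trans (le_max_left _ _)
  have hA2 : M2 ≤ A := (le_max_right _ _).trans (le_max_left _ _)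
  have hA1 : 1 ≤ A := le_max_right _ _
  refine ⟨4 * A * 3, by positivity, ?_⟩
  intro δ hδ hδ1
  -- the functions
  set g : ℝ → ℂ := fun u => ((δ⁻¹ * ρ (u / δ) : ℝ) : ℂ) with hg
  set g1 : ℝ → ℂ := fun u => ((δ⁻¹ * (deriv ρ (u / δ) * δ⁻¹) : ℝ) : ℂ) with hg1
  set g2 : ℝ → ℂ := fun u => ((δ⁻¹ * (deriv (deriv ρ) (u / δ) * δ⁻¹ * δ⁻¹) : ℝ) : ℂ) with hg2
  have hid : ∀ u : ℝ, HasDerivAt (fun u : ℝ => u / δ) δ⁻¹ u := by
    intro u
    have := (hasDerivAt_id u).div_const δ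
    simpa [one_div] using this
  have hgd : ∀ u, HasDerivAt g (g1 u) u := by
    intro u
    have a1 : HasDerivAt (fun u => ρ (u / δ)) (deriv ρ (u / δ) * δ⁻¹) u :=
      HasDerivAt.comp u (hdiff (u / δ)).hasDerivAt (hid u)
    exact (a1.const_mul δ⁻¹).ofReal_comp
  have hg1d : ∀ u, HasDerivAt g1 (g2 u) u := by
    intro u
    have a1 : HasDerivAt (fun u => deriv ρ (u / δ)) (deriv (deriv ρ) (u / δ) * δ⁻¹) u :=
      HasDerivAt.comp (h₂ := deriv ρ) u (hdiff1 (u / δ)).hasDerivAt (hid u)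
    exact ((a1.mul_const δ⁻¹).const_mul δ⁻¹).ofReal_comp
  have hgc : Continuous g := continuous_iff_continuousAt.2 fun u => (hgd u).continuousAt
  have hg1c : Continuous g1 := continuous_iff_continuousAt.2 fun u => (hg1d u).continuousAt
  have hg2c : Continuous g2 := by
    apply Complex.continuous_ofReal.comp
    exact continuous_const.mul (((hc2.comp (continuous_id.div_const δ)).mul
      continuous_const).mul continuous_const)
  have hg00 : g 0 = 0 := by simp [hg, h0 0 le_rfl]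
  have hg10 : g1 0 = 0 := by simp [hg1, d0 0 le_rfl]
  have hδi : 1 ≤ 1 / δ := by rw [le_div_iff₀ hδ]; linarith
  have hg01 : g 1 = 0 := by simp only [hg]; rw [h1 _ hδi]; simp
  have hg11 : g1 1 = 0 := by simp only [hg1]; rw [d1 _ hδi]; simp
  have hpast : ∀ u, δ ≤ u → g u = 0 := by
    intro u hu
    simp only [hg]; rw [h1 _ ((one_le_div hδ).2 hu)]; simp
  have hpast2 : ∀ u, δ ≤ u → g2 u = 0 := by
    intro u hu
    simp only [hg2]; rw [dd1 _ ((one_le_div hδ).2 hu)]; simp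
  have hunit : ∀ u ∈ Icc 0 δ, u / δ ∈ Icc (0:ℝ) 1 := fun u hu =>
    ⟨div_nonneg hu.1 hδ.le, (div_le_one hδ).2 hu.2⟩
  have hδinv : 0 < δ⁻¹ := inv_pos.2 hδ
  have hb0 : ∀ u ∈ Icc 0 δ, ‖g u‖ ≤ A * δ⁻¹ := by
    intro u hu
    simp only [hg]
    rw [Complex.norm_real, norm_mul, Real.norm_of_nonneg hδinv.le, mul_comm]
    exact mul_le_mul_of_nonneg_right ((hM0 _ (hunit u hu)).trans hA0) hδinv.le
  have hb2 : ∀ u ∈ Icc 0 δ, ‖g2 u‖ ≤ A * δ⁻¹ * δ⁻¹ * δ⁻¹ := by
    intro u hu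
    simp only [hg2]
    rw [Complex.norm_real, norm_mul, norm_mul, norm_mul, Real.norm_of_nonneg hδinv.le]
    have := (hM2 _ (hunit u hu)).trans hA2
    have h3 : ‖deriv (deriv ρ) (u / δ)‖ * δ⁻¹ * δ⁻¹ ≤ A * δ⁻¹ * δ⁻¹ := by gcongr
    calc δ⁻¹ * (‖deriv (deriv ρ) (u / δ)‖ * δ⁻¹ * δ⁻¹) ≤ δ⁻¹ * (A * δ⁻¹ * δ⁻¹) := by gcongr
      _ = _ := by ring
  set c : ℤ → ℂ := fun n => fourierCoeffOn (zero_lt_one' ℝ) g n with hcdef
  have hc0 : ∀ n, ‖c n‖ ≤ A := by
    intro n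
    have := coeff_le hδ hδ1 hgc hpast hb0 n
    rwa [mul_assoc, inv_mul_cancel₀ hδ.ne', mul_one] at this
  have hcn : ∀ n : ℤ, n ≠ 0 → ‖c n‖ * (|(n:ℝ)| * δ) ^ 2 ≤ A := by
    intro n hn
    have e1 := coeff_deriv hgd hg1c hg00 hg01 hn
    have e2 := coeff_deriv hg1d hg2c hg10 hg11 hn
    have e3 := coeff_le hδ hδ1 hg2c hpast2 hb2 n
    have hnpos : 0 < |(n:ℝ)| := abs_pos.2 (by exact_mod_cast hn)
    have hpi : (1:ℝ) ≤ 2 * Real.pi := by nlinarith [Real.two_le_pi]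
    have e4 : A * δ⁻¹ * δ⁻¹ * δ⁻¹ * δ = A * (δ⁻¹) ^ 2 := by
      field_simp
    rw [e4] at e3
    have e5 : ‖c n‖ = 1 / (2 * Real.pi * |(n:ℝ)|) * (1 / (2 * Real.pi * |(n:ℝ)|) *
        ‖fourierCoeffOn (zero_lt_one' ℝ) g2 n‖) := by
      rw [← e2, ← e1]
    have e6 : 1 / (2 * Real.pi * |(n:ℝ)|) ≤ 1 / |(n:ℝ)| := by
      apply one_div_le_one_div_of_le hnpos
      nlinarith
    have e7 : ‖c n‖ ≤ 1 / |(n:ℝ)| * (1 / |(n:ℝ)| * (A * (δ⁻¹) ^ 2)) := by
      rw [e5]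
      gcongr
    calc ‖c n‖ * (|(n:ℝ)| * δ) ^ 2 ≤ 1 / |(n:ℝ)| * (1 / |(n:ℝ)| * (A * (δ⁻¹) ^ 2)) *
          (|(n:ℝ)| * δ) ^ 2 := by gcongr
      _ = A := by field_simp
  have hcw : ∀ n, ‖c n‖ ≤ 4 * A * w δ n := by
    intro n
    by_cases hn : n = 0
    · subst hn
      have := hc0 0
      simp only [w, Int.cast_zero, abs_zero, zero_mul, add_zero, one_pow, div_one, mul_one]
      linarith
    · have e1 := hcn n hn
      have e0 := hc0 n
      have hx : 0 ≤ |(n:ℝ)| * δ := by positivity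
      set x := |(n:ℝ)| * δ with hxdef
      have : w δ n = 1 / (1 + x) ^ 2 := rfl
      rw [this, mul_one_div, le_div_iff₀ (by positivity)]
      nlinarith [mul_nonneg (norm_nonneg (c n)) (sq_nonneg (1 - x))]
  obtain ⟨hws, hwt⟩ := hasSum_w hδ hδ1
  have hcs : Summable fun n => ‖c n‖ :=
    Summable.of_nonneg_of_le (fun n => norm_nonneg _) hcw (hws.mul_left _)
  refine ⟨c, hcs, ?_, ?_⟩
  · calc ∑' n, ‖c n‖ ≤ ∑' n, 4 * A * w δ n := hcs.tsum_le_tsum hcw (hws.mul_left _)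
      _ = 4 * A * ∑' n, w δ n := tsum_mul_left
      _ ≤ 4 * A * (3 / δ) := by gcongr
      _ = _ := by ring
  · intro u hu
    have : Fact ((0:ℝ) < 1) := ⟨zero_lt_one⟩
    let G : C(AddCircle (1:ℝ), ℂ) := ⟨AddCircle.liftIco 1 0 g,
      AddCircle.liftIco_zero_continuous (by rw [hg00, hg01]) hgc.continuousOn⟩
    have hcG : ∀ n, fourierCoeff G n = c n := by
      intro n
      have := fourierCoeff_liftIco_eq (T := (1:ℝ)) (a := 0) g n
      rw [hcdef]
      simp only [G, ContinuousMap.coe_mk]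
      rw [this]
      congr 1
      simp
    have hsum : Summable (fourierCoeff G) := by
      apply Summable.of_norm
      simp_rw [hcG]
      exact hcs
    have hpt := has_pointwise_sum_fourier_series_of_summable hsum (u : AddCircle (1:ℝ))
    have hGu : G (u : AddCircle (1:ℝ)) = g u := by
      simp only [G, ContinuousMap.coe_mk]
      rcases hu.2.eq_or_lt with h | h
      · subst h
        have e : ((1:ℝ) : AddCircle (1:ℝ)) = ((0:ℝ) : AddCircle (1:ℝ)) := by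
          rw [AddCircle.coe_period]; simp
        rw [e, AddCircle.liftIco_coe_apply (by simp), hg00, hg01]
      · exact AddCircle.liftIco_coe_apply (by simpa using ⟨hu.1, h⟩)
    rw [hGu] at hpt
    have hgu : ((δ⁻¹ * ρ (u / δ) : ℝ) : ℂ) = g u := rfl
    rw [hgu, ← hpt.tsum_eq]
    congr 1
    ext n
    rw [hcG, smul_eq_mul]
    congr 1
    rw [fourier_coe_apply]
    simp only [ee]
    congr 1
    push_cast
    ring

end Pool.Agent.U34.EP.BUMP
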